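import Mathlib
import Pool.Agent.Lib.MP_196a10_nt.Final

open Polynomial

namespace Pool.Agent.Results.MP_196a10_nt.ShiftedIrreducibles

/-- For every `c > 2^(7/8)`, in particular for `c = 1.999`: if `n` is large and `A` is a set of
polynomials over `F_2` of degree at most `n` with at least `c^n` elements, then `a - b - 1` is
irreducible for some `a, b` in `A`. -/
theorem result (c : ℝ) (hc : (2 : ℝ) ^ ((7 : ℝ) / 8) < c) :
    ∃ n₀ : ℕ, ∀ n : ℕ, n₀ ≤ n → ∀ A : Finset (ZMod 2)[X], (∀ a ∈ A, a.natDegree ≤ n) →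
      c ^ n ≤ (A.card : ℝ) → ∃ a ∈ A, ∃ b ∈ A, Irreducible (a - b - 1) := by
  obtain ⟨n₀, h⟩ := Pool.Agent.MP196.shifted_irreducibles c hc
  exact ⟨n₀, fun n hn A hA hcard => h n hn A hA hcard⟩

end Pool.Agent.Results.MP_196a10_nt.ShiftedIrreducibles
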